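import Pool.Agent.W528.HI.Stm
import Pool.Agent.W318.HF.PB

/-!
# HI-PT: the point count with two Kummer directions, polynomials
-/

set_option autoImplicit false

namespace Pool.Agent.W15.HI.PT

open Finset Polynomial Pool.Agent.W528.HA Pool.Agent.W528.HC Pool.Agent.W528.HI
open Pool.Agent.W125.HC.PC Pool.Agent.W318.HF.PB

section

variable {L : Type} [Field L] [Fintype L]

theorem tri_eq {n e r m : ℕ} (f : Fin m → L[X]) (a : Fin m → ℕ) {E : Type} [Field E] :
    ((triPoints L n e r f a : ℕ) : E) =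
      ∑ x : L, ∑ u : L, ((Set.ncard {y : L | y ^ n =
        ∏ i, (x ^ e - (f i).eval (u ^ r)) ^ a i} : ℕ) : E) := by
  classical
  unfold triPoints
  have h : {v : L × L × L | v.2.2 ^ n = ∏ i, (v.1 ^ e - (f i).eval (v.2.1 ^ r)) ^ a i} =
      ((univ.filter (fun v : L × L × L =>
        v.2.2 ^ n = ∏ i, (v.1 ^ e - (f i).eval (v.2.1 ^ r)) ^ a i) : Finset (L × L × L)) :
        Set (L × L × L)) := by
    ext y; simp
  rw [h, Set.ncard_coe_finset, card_filter, Fintype.sum_prod_type]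
  push_cast
  refine sum_congr rfl fun x _ => ?_
  rw [Fintype.sum_prod_type]
  refine sum_congr rfl fun u _ => ?_
  rw [ncard_eq]

end

theorem gen (hPR : PR) (hMU : MU) (L : Type) [Field L] [Fintype L] (p e r : ℕ) (z : L)
    (hp : 2 ≤ p) (he : 0 < e) (hr : 0 < r) (hz : IsPrimitiveRoot z (p * e * r)) (E : Type)
    [Field E] [CharZero E] (μ : E) (hμ : IsPrimitiveRoot μ (p * e * r)) (m : ℕ)
    (f : Fin m → L[X]) (a : Fin m → ℕ) (ha : ∀ i, 0 < a i ∧ (a i).Coprime p) :
    ∑ j ∈ Ico 1 p, ∑ s₁ ∈ range e, ∑ s₂ ∈ range r, triSum L E p e r f a z μ j s₁ s₂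
      = (triPoints L p e r f a : E) - (Fintype.card L : E) ^ 2 := by
  classical
  have hp0 : 0 < p := by omega
  have her : 0 < e * r := Nat.mul_pos he hr
  have hNa : p * e * r = p * (e * r) := mul_assoc p e r
  have hN : 0 < p * e * r := by
    rw [hNa]
    exact Nat.mul_pos hp0 her
  have hN2 : 2 ≤ p * e * r := by
    calc 2 ≤ p := hp
      _ = p * 1 := (mul_one p).symm
      _ ≤ p * (e * r) := Nat.mul_le_mul_left p her
      _ = p * e * r := hNa.symm
  have hmu := hMU L (p * e * r) z hN2 hz E μ hμ.pow_eq_one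
  obtain ⟨F, hF⟩ : ∃ F : L → L → L, F = fun x t => ∏ i, (x - (f i).eval t) ^ a i := ⟨_, rfl⟩
  obtain ⟨W, hW⟩ : ∃ W : L → E, ∀ v, W v =
      kv (p * e * r) z μ (v ^ ((Fintype.card L - 1) / (p * e * r))) := ⟨_, fun _ => rfl⟩
  have hWm : ∀ v w : L, W (v * w) = W v * W w := by
    intro v w
    rw [hW, hW, hW]
    exact hmu v w
  have hz' : IsPrimitiveRoot z (p * (e * r)) := hNa ▸ hz
  have h1 : ∀ j ∈ Ico 1 p, ∀ s₁ s₂ : ℕ, ∀ x t : L,
      W ((∏ i, (x - (f i).eval t) ^ (e * r * (j * a i % p))) * x ^ (p * r * s₁)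
        * t ^ (p * e * s₂)) =
      W (F x t ^ (e * r * j)) * W (x ^ (p * r * s₁)) * W (t ^ (p * e * s₂)) := by
    intro j hj s₁ s₂ x t
    rw [mem_Ico] at hj
    rw [hWm, hWm]
    congr 2
    rw [hW, hW, hF]
    congr 1
    simp only
    rw [← prod_pow, ← prod_pow, ← prod_pow]
    refine prod_congr rfl fun i _ => ?_
    have hnd : ¬ p ∣ j * a i := by
      intro hd
      have h := (ha i).2.symm.dvd_of_dvd_mul_right hd
      have := Nat.le_of_dvd (by omega) h
      omega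
    have h4 := pow_mod hp0 her hz' hnd (x - (f i).eval t)
    rw [← hNa] at h4
    rw [h4, ← pow_mul (x - (f i).eval t) (a i)]
    congr 2
    ring
  have h2 : ∀ v : L, ∑ j ∈ Ico 1 p, W (v ^ (e * r * j)) =
      ((Set.ncard {y : L | y ^ p = v} : ℕ) : E) - 1 := by
    intro v
    have := hPR L (p * e * r) p (e * r) z hNa hz hp0 her E μ hμ v
    rw [this]
    simp only [hW]
    ring
  have h3 : ∀ v : L, ∑ s ∈ range e, W (v ^ (p * r * s)) =
      ((Set.ncard {y : L | y ^ e = v} : ℕ) : E) := by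
    intro v
    have := hPR L (p * e * r) e (p * r) z (by ring) hz he (Nat.mul_pos hp0 hr) E μ hμ v
    rw [this, range_eq_Ico, sum_eq_sum_Ico_succ_bot he]
    simp only [hW]
    congr 1
    rw [mul_zero, pow_zero, one_pow, kv_one hN hz]
  have h3' : ∀ v : L, ∑ s ∈ range r, W (v ^ (p * e * s)) =
      ((Set.ncard {y : L | y ^ r = v} : ℕ) : E) := by
    intro v
    have := hPR L (p * e * r) r (p * e) z (by ring) hz hr (Nat.mul_pos hp0 he) E μ hμ v
    rw [this, range_eq_Ico, sum_eq_sum_Ico_succ_bot hr]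
    simp only [hW]
    congr 1
    rw [mul_zero, pow_zero, one_pow, kv_one hN hz]
  have e1 : ∑ j ∈ Ico 1 p, ∑ s₁ ∈ range e, ∑ s₂ ∈ range r,
      triSum L E p e r f a z μ j s₁ s₂ =
      ∑ j ∈ Ico 1 p, ∑ s₁ ∈ range e, ∑ s₂ ∈ range r, ∑ x : L, ∑ t : L,
        W (F x t ^ (e * r * j)) * W (x ^ (p * r * s₁)) * W (t ^ (p * e * s₂)) := by
    refine sum_congr rfl fun j hj => sum_congr rfl fun s₁ _ => sum_congr rfl fun s₂ _ => ?_
    unfold triSum
    refine sum_congr rfl fun x _ => sum_congr rfl fun t _ => ?_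
    rw [← h1 j hj s₁ s₂ x t, hW]
  rw [e1]
  have e2 := swap5 (L := L) (Ico 1 p) (range e) (range r) (fun x t j => W (F x t ^ (e * r * j)))
    (fun x s => W (x ^ (p * r * s))) (fun t s => W (t ^ (p * e * s)))
  refine e2.trans ?_
  have e3 : ∑ x : L, ∑ t : L, (∑ j ∈ Ico 1 p, W (F x t ^ (e * r * j))) *
      (∑ s ∈ range e, W (x ^ (p * r * s))) * ∑ s ∈ range r, W (t ^ (p * e * s)) =
      ∑ x : L, ∑ t : L, (((Set.ncard {y : L | y ^ p = F x t} : ℕ) : E) - 1) *
        ((Set.ncard {y : L | y ^ e = x} : ℕ) : E) * ((Set.ncard {y : L | y ^ r = t} : ℕ) : E) :=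
    sum_congr rfl fun x _ => sum_congr rfl fun t _ => by rw [h2, h3, h3']
  refine e3.trans ?_
  refine (fib2 e r (fun x t => ((Set.ncard {y : L | y ^ p = F x t} : ℕ) : E) - 1)).trans ?_
  rw [tri_eq]
  simp only [sum_sub_distrib, sum_const, card_univ, nsmul_eq_mul, mul_one, hF]
  ring

theorem main : Pool.Agent.W528.HC.PR → Pool.Agent.W528.HC.MU → Pool.Agent.W528.HI.PT := by
  intro hPR hMU L _ _ n e r z hn he hr hz E _ _ μ hμ m f a ha
  rcases Nat.lt_or_ge 1 n with h1 | h1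
  · exact gen hPR hMU L n e r z h1 he hr hz E μ hμ m f a ha
  · have h2 : n = 1 := by omega
    subst h2
    classical
    rw [Finset.Ico_self, Finset.sum_empty, tri_eq]
    have e8 : ∀ c : L, Set.ncard {y : L | y ^ 1 = c} = 1 := by
      intro c
      have : {y : L | y ^ 1 = c} = {c} := by
        ext y
        simp
      rw [this, Set.ncard_singleton]
    simp only [e8, Nat.cast_one, sum_const, card_univ, nsmul_eq_mul, mul_one]
    ring

end Pool.Agent.W15.HI.PT
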